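import Mathlib

/-!
# Colliding orbits for the families `f + lam` in characteristic `p` (MP_a5410e_nt)

The set `C_f(a₁,a₂;b)` can be infinite although `f(a₁) ≠ f(a₂)`.

Mechanism: if `c := f(a₁) - f(a₂)` is a period of `f`, i.e. `f(x + c) = f(x)` identically, then
`f_lam(a₁) = f_lam(a₂) + c`, so `f_lam²(a₁) = f_lam²(a₂)` for *every* `lam`, and the two orbits
merge. In characteristic `p` there are many non-additive `f` with a non-zero period, e.g.
`f = (x^p - x)^(p+1)`.
-/

namespace Pool.Agent.Results.MP_a5410e_nt.PeriodicPolynomials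

open Polynomial

/-- The map `f_lam : x ↦ f(x) + lam`. -/
def shiftMap {K : Type*} [Field K] (f : Polynomial K) (lam x : K) : K := f.eval x + lam

/-- `C_f(a₁,a₂;b)`: the parameters `lam` in the algebraic closure of `L` such that
`f_lam^m(a₁) = b = f_lam^n(a₂)` for some `m, n ≥ 1`. -/
def Coll {L : Type*} [Field L] (f : Polynomial (AlgebraicClosure L)) (a₁ a₂ b : L) :
    Set (AlgebraicClosure L) :=
  {lam | ∃ m n : ℕ, 1 ≤ m ∧ 1 ≤ n ∧
    (shiftMap f lam)^[m] (algebraMap L (AlgebraicClosure L) a₁) =
      algebraMap L (AlgebraicClosure L) b ∧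
    (shiftMap f lam)^[n] (algebraMap L (AlgebraicClosure L) a₂) =
      algebraMap L (AlgebraicClosure L) b}

/-- The data `(L, f, a₁, a₂, b)` of the question in characteristic `p`: the coefficients of `f`
are algebraic over `𝔽_p`, `deg f ≥ 2`, `f` is not additive, and `a₁, a₂, b` are not all
algebraic over `𝔽_p`. -/
structure Admissible (p : ℕ) [Fact p.Prime] {L : Type*} [Field L] [Algebra (ZMod p) L]
    (f : Polynomial (AlgebraicClosure L)) (a₁ a₂ b : L) : Prop where
  coeff_alg : ∀ i, IsAlgebraic (ZMod p) (f.coeff i)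
  two_le : 2 ≤ f.natDegree
  not_additive : ¬ ∀ x y : AlgebraicClosure L, f.eval (x + y) = f.eval x + f.eval y
  not_all_alg : ¬ (IsAlgebraic (ZMod p) a₁ ∧ IsAlgebraic (ZMod p) a₂ ∧ IsAlgebraic (ZMod p) b)

section general

/-- the polynomials `G_n(lam) = f_lam^n(a)` in the variable `lam` -/
noncomputable def G {A : Type*} [Field A] (f : Polynomial A) (a : A) : ℕ → Polynomial A
  | 0 => C a
  | n + 1 => f.comp (G f a n) + X

lemma natDegree_G {A : Type*} [Field A] (f : Polynomial A) (a : A) (hf : 2 ≤ f.natDegree) (n : ℕ) :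
    (G f a (n + 1)).natDegree = f.natDegree ^ n := by
  induction n with
  | zero =>
    simp only [G, comp_C, pow_zero]
    rw [add_comm, natDegree_X_add_C]
  | succ n ih =>
    rw [G, natDegree_add_eq_left_of_natDegree_lt, natDegree_comp, ih, pow_succ, mul_comm]
    rw [natDegree_comp, ih, natDegree_X]
    have : 1 ≤ f.natDegree ^ n := Nat.one_le_pow _ _ (by omega)
    nlinarith

lemma aeval_G {A K : Type*} [Field A] [Field K] [Algebra A K] (f : Polynomial A) (a : A)
    (lam : K) (n : ℕ) :
    aeval lam (G f a n) = (shiftMap (f.map (algebraMap A K)) lam)^[n] (algebraMap A K a) := by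
  induction n with
  | zero => simp [G]
  | succ n ih =>
    rw [Function.iterate_succ_apply', ← ih, G, map_add, aeval_X, shiftMap, eval_map,
      aeval_comp, aeval_def]

/-- If `a` is algebraic and `b` is transcendental over `𝔽_p`, the same parameter cannot send `a` to
`b` in two different numbers of steps. -/
lemma G_disjoint {p : ℕ} [Fact p.Prime] {K : Type*} [Field K] [Algebra (ZMod p) K]
    (f : Polynomial (algebraicClosure (ZMod p) K)) (a : algebraicClosure (ZMod p) K)
    (hf : 2 ≤ f.natDegree) (b : K) (hb : ¬ IsAlgebraic (ZMod p) b) (lam : K) (m n : ℕ)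
    (hm : aeval lam (G f a (m + 1)) = b) (hn : aeval lam (G f a (n + 1)) = b) : m = n := by
  by_contra hmn
  have hdeg : (G f a (m + 1)).natDegree ≠ (G f a (n + 1)).natDegree := by
    rw [natDegree_G f a hf, natDegree_G f a hf]
    intro h
    exact hmn (Nat.pow_right_injective hf h)
  have hne : G f a (m + 1) - G f a (n + 1) ≠ 0 := by
    intro h
    exact hdeg (by rw [sub_eq_zero.mp h])
  have hlam : IsAlgebraic (algebraicClosure (ZMod p) K) lam :=
    ⟨_, hne, by rw [map_sub, hm, hn, sub_self]⟩
  have hlam' : IsAlgebraic (ZMod p) lam := hlam.restrictScalars (ZMod p)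
  apply hb
  rw [← hm]
  have h1 : aeval lam (G f a (m + 1)) =
      ((aeval (⟨lam, mem_algebraicClosure_iff.mpr hlam'⟩ : algebraicClosure (ZMod p) K)
        (G f a (m + 1)) : algebraicClosure (ZMod p) K) : K) :=
    aeval_algebraMap_apply K
      (⟨lam, mem_algebraicClosure_iff.mpr hlam'⟩ : algebraicClosure (ZMod p) K) (G f a (m + 1))
  rw [h1]
  exact mem_algebraicClosure_iff.mp (SetLike.coe_mem _)

lemma infinite_aux {p : ℕ} [Fact p.Prime] {K : Type*} [Field K] [IsAlgClosed K]
    [Algebra (ZMod p) K]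
    (f : Polynomial K) (hfa : ∀ i, IsAlgebraic (ZMod p) (f.coeff i)) (hf : 2 ≤ f.natDegree)
    (a b : K) (ha : IsAlgebraic (ZMod p) a) (hb : ¬ IsAlgebraic (ZMod p) b) :
    {lam : K | ∃ n : ℕ, (shiftMap f lam)^[n + 2] a = b}.Infinite := by
  obtain ⟨f0, hf0⟩ : ∃ f0 : Polynomial (algebraicClosure (ZMod p) K),
      f0.map (algebraMap (algebraicClosure (ZMod p) K) K) = f := by
    have : f ∈ Polynomial.lifts (algebraMap (algebraicClosure (ZMod p) K) K) := by
      rw [Polynomial.lifts_iff_coeff_lifts]
      intro i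
      exact ⟨⟨f.coeff i, (mem_algebraicClosure_iff).mpr (hfa i)⟩, rfl⟩
    exact (Polynomial.mem_lifts _).mp this
  set a0 : algebraicClosure (ZMod p) K := ⟨a, (mem_algebraicClosure_iff).mpr ha⟩ with ha0
  have hf0d : 2 ≤ f0.natDegree := by
    have : f.natDegree = f0.natDegree := by rw [← hf0, natDegree_map]
    omega
  have key : ∀ n : ℕ, ∃ lam : K, aeval lam (G f0 a0 (n + 2)) = b := by
    intro n
    have hd : ((G f0 a0 (n + 2)).map (algebraMap _ K) - C b).degree ≠ 0 := by
      have h1 : ((G f0 a0 (n + 2)).map (algebraMap _ K)).natDegree = f0.natDegree ^ (n + 1) := by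
        rw [natDegree_map, natDegree_G f0 a0 hf0d]
      have h2 : ((G f0 a0 (n + 2)).map (algebraMap _ K) - C b).natDegree =
          f0.natDegree ^ (n + 1) := by
        rw [natDegree_sub_C, h1]
      intro h
      have h4 : ((G f0 a0 (n + 2)).map (algebraMap _ K) - C b).natDegree = 0 := by
        rw [natDegree, h]; rfl
      rw [h2] at h4
      have h3 : 1 ≤ f0.natDegree ^ (n + 1) := Nat.one_le_pow _ _ (by omega)
      omega
    obtain ⟨lam, hlam⟩ := IsAlgClosed.exists_root _ hd
    refine ⟨lam, ?_⟩
    rw [IsRoot, eval_sub, eval_C, sub_eq_zero, eval_map] at hlam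
    rw [aeval_def]
    exact hlam
  choose lam hlam using key
  refine Set.infinite_of_injective_forall_mem (f := lam) ?_ ?_
  · intro m n hmn
    have h := G_disjoint f0 a0 hf0d b hb (lam m) (m + 1) (n + 1) (hlam m)
      (by rw [hmn]; exact hlam n)
    omega
  · intro n
    refine ⟨n, ?_⟩
    have := hlam n
    rw [aeval_G, hf0] at this
    exact this

end general

/-- **Mechanism.** If `f` has coefficients algebraic over `𝔽_p` and degree `≥ 2`, `a₂` is algebraic
and `b` is transcendental over `𝔽_p`, and `f(a₁) - f(a₂)` is a period of `f`, then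
`C_f(a₁,a₂;b)` is infinite. -/
theorem coll_infinite {p : ℕ} [Fact p.Prime] {L : Type*} [Field L] [Algebra (ZMod p) L]
    (f : Polynomial (AlgebraicClosure L)) (hfa : ∀ i, IsAlgebraic (ZMod p) (f.coeff i))
    (hf : 2 ≤ f.natDegree) (a₁ a₂ b : L)
    (ha : IsAlgebraic (ZMod p) a₂) (hb : ¬ IsAlgebraic (ZMod p) b)
    (hper : ∀ x : AlgebraicClosure L,
      f.eval (x + (f.eval (algebraMap L (AlgebraicClosure L) a₁) -
        f.eval (algebraMap L (AlgebraicClosure L) a₂))) = f.eval x) :
    (Coll f a₁ a₂ b).Infinite := by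
  have hb' : ¬ IsAlgebraic (ZMod p) (algebraMap L (AlgebraicClosure L) b) := by
    intro h
    exact hb ((isAlgebraic_algebraMap_iff (algebraMap L (AlgebraicClosure L)).injective).mp h)
  have ha' : IsAlgebraic (ZMod p) (algebraMap L (AlgebraicClosure L) a₂) := ha.algebraMap
  refine (infinite_aux f hfa hf _ _ ha' hb').mono ?_
  rintro lam ⟨n, hn⟩
  refine ⟨n + 2, n + 2, by omega, by omega, ?_, hn⟩
  rw [Function.iterate_add_apply] at hn ⊢
  rw [← hn]
  congr 1
  simp only [Function.iterate_succ, Function.iterate_zero, Function.comp_apply, id_eq, shiftMap]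
  rw [← hper (f.eval (algebraMap L (AlgebraicClosure L) a₂) + lam)]
  congr 2
  ring

/-- The polynomial `f = (x^p - x)^(p+1)`: it has coefficients in `𝔽_p`, degree `p(p+1)`,
`f(0) = 0`, and `f(x + c) = f(x)` for all `c ∈ 𝔽_p`. -/
noncomputable def fEx (p : ℕ) (K : Type*) [Field K] : Polynomial K := (X ^ p - X) ^ (p + 1)

lemma fEx_eval (p : ℕ) {K : Type*} [Field K] (x : K) :
    (fEx p K).eval x = (x ^ p - x) ^ (p + 1) := by
  simp [fEx]

lemma fEx_map (p : ℕ) {A K : Type*} [Field A] [Field K] [Algebra A K] :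
    (fEx p A).map (algebraMap A K) = fEx p K := by
  simp [fEx]

theorem example_spec {p : ℕ} [hp : Fact p.Prime] {L : Type*} [Field L] [Algebra (ZMod p) L]
    (a b : L) (ha : a ^ p - a = 1) (hb : ¬ IsAlgebraic (ZMod p) b) :
    Admissible p (fEx p (AlgebraicClosure L)) a 0 b ∧
    (Coll (fEx p (AlgebraicClosure L)) a 0 b).Infinite := by
  haveI : CharP L p := charP_of_injective_algebraMap (algebraMap (ZMod p) L).injective p
  haveI : CharP (AlgebraicClosure L) p :=
    charP_of_injective_algebraMap (algebraMap L (AlgebraicClosure L)).injective p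
  have hp2 : 2 ≤ p := hp.out.two_le
  have hcoeff : ∀ i, IsAlgebraic (ZMod p) ((fEx p (AlgebraicClosure L)).coeff i) := by
    intro i
    rw [← fEx_map p (A := ZMod p), coeff_map]
    exact isAlgebraic_algebraMap _
  have hdeg : (fEx p (AlgebraicClosure L)).natDegree = (p + 1) * p := by
    rw [fEx, natDegree_pow, natDegree_sub_eq_left_of_natDegree_lt, natDegree_X_pow]
    rw [natDegree_X_pow, natDegree_X]
    omega
  have h2 : 2 ≤ (fEx p (AlgebraicClosure L)).natDegree := by
    rw [hdeg]; nlinarith
  have ha' : (algebraMap L (AlgebraicClosure L) a) ^ p - algebraMap L (AlgebraicClosure L) a = 1 := by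
    rw [← map_pow, ← map_sub, ha, map_one]
  have hb' : ¬ IsAlgebraic (ZMod p) (algebraMap L (AlgebraicClosure L) b) := by
    intro h
    exact hb ((isAlgebraic_algebraMap_iff (algebraMap L (AlgebraicClosure L)).injective).mp h)
  refine ⟨⟨hcoeff, h2, ?_, fun h => hb h.2.2⟩, ?_⟩
  · intro hadd
    set s := algebraMap L (AlgebraicClosure L) b with hs
    obtain ⟨x, hx⟩ : ∃ x : AlgebraicClosure L, x ^ p - x = s := by
      have hd : ((X : Polynomial (AlgebraicClosure L)) ^ p - X - C s).degree ≠ 0 := by
        have h1 : ((X : Polynomial (AlgebraicClosure L)) ^ p - X - C s).natDegree = p := by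
          rw [natDegree_sub_C, natDegree_sub_eq_left_of_natDegree_lt, natDegree_X_pow]
          rw [natDegree_X_pow, natDegree_X]
          omega
        intro h
        have h4 : ((X : Polynomial (AlgebraicClosure L)) ^ p - X - C s).natDegree = 0 := by
          rw [natDegree, h]; rfl
        omega
      obtain ⟨x, hx⟩ := IsAlgClosed.exists_root _ hd
      refine ⟨x, ?_⟩
      simpa [IsRoot, sub_eq_zero] using hx
    have h := hadd x (algebraMap L (AlgebraicClosure L) a)
    rw [fEx_eval, fEx_eval, fEx_eval] at h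
    rw [add_pow_char] at h
    have e1 : x ^ p + (algebraMap L (AlgebraicClosure L)) a ^ p -
        (x + (algebraMap L (AlgebraicClosure L)) a) = s + 1 := by
      rw [← hx, ← ha']; ring
    rw [e1, hx, ha', pow_succ, add_pow_char] at h
    have e2 : s ^ p + s = 0 := by
      have : (s ^ p + 1 ^ p) * (s + 1) - (s ^ (p + 1) + 1 ^ (p + 1)) = 0 := by rw [h, sub_self]
      rw [← this]; ring
    apply hb'
    refine ⟨X ^ p + X, ?_, ?_⟩
    · intro h0
      have : ((X : Polynomial (ZMod p)) ^ p + X).natDegree = p := by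
        rw [natDegree_add_eq_left_of_natDegree_lt, natDegree_X_pow]
        rw [natDegree_X_pow, natDegree_X]
        omega
      rw [h0, natDegree_zero] at this
      omega
    · simpa using e2
  · refine coll_infinite _ hcoeff h2 a 0 b isAlgebraic_zero hb ?_
    intro x
    simp only [fEx_eval, map_zero]
    rw [ha']
    congr 1
    have : (1 : AlgebraicClosure L) ^ (p + 1) - (0 ^ p - 0) ^ (p + 1) = 1 := by
      rw [zero_pow (by omega : p ≠ 0)]; simp
    rw [this, add_pow_char]
    ring

/-- **Disproof of Q1 of MP_a5410e_nt, in every characteristic.** For every prime `p` there are a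
field `L` of characteristic `p` and `a, b ∈ L` such that, for the non-additive polynomial
`f = (x^p - x)^(p+1)` (so `f(0) = 0`), the data `(L, f, a, 0, b)` are admissible,
`C_f(a,0;b)` is infinite, and yet `f(a) = 1 ≠ 0 = f(0)`. -/
theorem result (p : ℕ) [Fact p.Prime] :
    ∃ (L : Type) (_ : Field L) (_ : Algebra (ZMod p) L) (a b : L),
      Admissible p ((X ^ p - X) ^ (p + 1) : Polynomial (AlgebraicClosure L)) a 0 b ∧
      (Coll ((X ^ p - X) ^ (p + 1) : Polynomial (AlgebraicClosure L)) a 0 b).Infinite ∧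
      ((X ^ p - X) ^ (p + 1) : Polynomial (AlgebraicClosure L)).eval
        (algebraMap L (AlgebraicClosure L) a) = 1 ∧
      ((X ^ p - X) ^ (p + 1) : Polynomial (AlgebraicClosure L)).eval
        (algebraMap L (AlgebraicClosure L) 0) = 0 := by
  have hp2 : 2 ≤ p := (Fact.out : p.Prime).two_le
  obtain ⟨a0, ha0⟩ : ∃ x : AlgebraicClosure (ZMod p), x ^ p - x = 1 := by
    have hd : ((X : Polynomial (AlgebraicClosure (ZMod p))) ^ p - X - C 1).degree ≠ 0 := by
      have h1 : ((X : Polynomial (AlgebraicClosure (ZMod p))) ^ p - X - C 1).natDegree = p := by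
        rw [natDegree_sub_C, natDegree_sub_eq_left_of_natDegree_lt, natDegree_X_pow]
        rw [natDegree_X_pow, natDegree_X]
        omega
      intro h
      have h4 : ((X : Polynomial (AlgebraicClosure (ZMod p))) ^ p - X - C 1).natDegree = 0 := by
        rw [natDegree, h]; rfl
      omega
    obtain ⟨x, hx⟩ := IsAlgClosed.exists_root _ hd
    refine ⟨x, ?_⟩
    simpa [IsRoot, sub_eq_zero] using hx
  let L := RatFunc (AlgebraicClosure (ZMod p))
  have hb : ¬ IsAlgebraic (ZMod p) (RatFunc.X : L) := by
    intro h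
    have h1 : IsAlgebraic (AlgebraicClosure (ZMod p)) (RatFunc.X : L) :=
      h.tower_top (AlgebraicClosure (ZMod p))
    exact RatFunc.transcendental_X h1
  have ha : (algebraMap (AlgebraicClosure (ZMod p)) L a0) ^ p -
      algebraMap (AlgebraicClosure (ZMod p)) L a0 = 1 := by
    rw [← map_pow, ← map_sub, ha0, map_one]
  have h := example_spec (algebraMap (AlgebraicClosure (ZMod p)) L a0) RatFunc.X ha hb
  refine ⟨L, inferInstance, inferInstance, algebraMap (AlgebraicClosure (ZMod p)) L a0,
    RatFunc.X, h.1, h.2, ?_, ?_⟩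
  · simp only [eval_pow, eval_sub, eval_X]
    rw [← map_pow, ← map_sub, ha, map_one, one_pow]
  · simp only [eval_pow, eval_sub, eval_X, map_zero]
    rw [zero_pow (by omega : p ≠ 0), sub_zero, zero_pow (by omega)]

end Pool.Agent.Results.MP_a5410e_nt.PeriodicPolynomials
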